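import Pool.Agent.H21.ASY.Stmts2

/-!
# ASY: modules CUT and GGT
-/

set_option autoImplicit false

namespace Pool.ASY

open Finset MeasureTheory Pool.Agent.H98.ABCR Pool.SHA
open scoped ArithmeticFunction.Moebius

theorem cut_thm (hCUS : S_CUS) : S_CUT := by
  intro θ hθ0 hθ1
  obtain ⟨-, hAA, -, hAr0, hcus⟩ := hCUS
  refine ⟨max 1 ((4 : ℝ) ^ θ * AA ^ (1 - θ)), le_max_left _ _, ?_⟩
  intro T Z hT hZ
  obtain ⟨h1, h2⟩ := hcus T Z hT hZ
  have h0 := hAr0 T Z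
  set D : ℝ := AA * T ^ (2 / 3 : ℝ) - Ar T Z with hD
  have hD0 : 0 ≤ D := sub_nonneg.2 h1
  have hT3 : 0 < T ^ (2 / 3 : ℝ) := Real.rpow_pos_of_pos hT _
  have hD1 : D ≤ AA * T ^ (2 / 3 : ℝ) := by rw [hD]; linarith
  have hx : 0 ≤ 4 * T / Z := by positivity
  have hy : 0 ≤ AA * T ^ (2 / 3 : ℝ) := by positivity
  rw [abs_of_nonneg hD0]
  have h3 : D ≤ (4 * T / Z) ^ θ * (AA * T ^ (2 / 3 : ℝ)) ^ (1 - θ) := by
    have e1 : D ^ θ ≤ (4 * T / Z) ^ θ := Real.rpow_le_rpow hD0 h2 hθ0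
    have e2 : D ^ (1 - θ) ≤ (AA * T ^ (2 / 3 : ℝ)) ^ (1 - θ) :=
      Real.rpow_le_rpow hD0 hD1 (by linarith)
    rcases hD0.eq_or_lt with h | h
    · rw [← h]; positivity
    · calc D = D ^ θ * D ^ (1 - θ) := by
            rw [← Real.rpow_add h]
            simp
        _ ≤ _ := mul_le_mul e1 e2 (Real.rpow_nonneg hD0 _) (Real.rpow_nonneg hx _)
  have h4 : (4 * T / Z) ^ θ * (AA * T ^ (2 / 3 : ℝ)) ^ (1 - θ) =
      ((4 : ℝ) ^ θ * AA ^ (1 - θ)) * T ^ (2 / 3 + θ / 3 : ℝ) * Z ^ (-θ) := by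
    rw [Real.div_rpow (by positivity) hZ.le, Real.mul_rpow (by norm_num) hT.le,
      Real.mul_rpow hAA.le hT3.le, ← Real.rpow_mul hT.le, Real.rpow_neg hZ.le]
    have e3 : T ^ θ * T ^ (2 / 3 * (1 - θ)) = T ^ (2 / 3 + θ / 3 : ℝ) := by
      rw [← Real.rpow_add hT]
      congr 1
      ring
    rw [← e3]
    field_simp
  rw [h4] at h3
  refine h3.trans ?_
  have hZ' : 0 ≤ Z ^ (-θ) := Real.rpow_nonneg hZ.le _
  have hT' : 0 ≤ T ^ (2 / 3 + θ / 3 : ℝ) := Real.rpow_nonneg hT.le _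
  exact mul_le_mul_of_nonneg_right (mul_le_mul_of_nonneg_right (le_max_right _ _) hT') hZ'

theorem ggt_thm (hSUT : S_SUT) (hCUT : S_CUT) (hKAP : S_KAP) (hEXC : S_EXC) (hGGB : S_GGB)
    (hEUL : S_EUL) : S_GGT := by
  intro θ hθ0 hθ1
  obtain ⟨C1, hC1, hsut⟩ := hSUT θ hθ0 hθ1
  obtain ⟨C2, hC2, hcut⟩ := hCUT θ hθ0 hθ1.le
  obtain ⟨-, -, -, hkap, -⟩ := hKAP
  obtain ⟨hex1, -, -, -, hex5, hex6⟩ := hEXC
  obtain ⟨C3, hC3, hggb⟩ := hGGB
  refine ⟨C2 * C1, by nlinarith, ?_⟩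
  intro lam hlam
  have hs1 : Summable (cg lam) := (hggb lam hlam).1
  have hs2 : Summable cf := hEUL.1
  have hl0 : 0 ≤ lam ^ (-θ) := Real.rpow_nonneg hlam.le _
  have hs3 : Summable fun d => cg lam d - AA * cf d := hs1.sub (hs2.mul_left AA)
  have hterm : ∀ d, |cg lam d - AA * cf d| ≤
      if Sqf d then C2 * lam ^ (-θ) * (6 ^ om d * (exc d : ℝ) ^ (2 / 3 + θ / 3 : ℝ) / d) else 0 := by
    intro d
    unfold cg cf
    by_cases hd : Sqf d
    · simp only [if_pos hd]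
      have hd0 : 0 < d := hd.1
      have e1 : (3 : ℝ) ^ om d * kap d * hA lam d - AA * (3 ^ om d * kap d * HH d) =
          3 ^ om d * kap d * (hA lam d - AA * HH d) := by ring
      rw [e1, abs_mul, abs_of_nonneg (mul_nonneg (by positivity) (hkap d hd0).1.le)]
      have e2 : hA lam d - AA * HH d = ∑ j ∈ d.divisors, (μ (d / j) : ℝ) *
          (Ar (exc j) lam - AA * (exc j : ℝ) ^ (2 / 3 : ℝ)) := by
        unfold hA HH
        rw [Finset.mul_sum, ← Finset.sum_sub_distrib]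
        refine Finset.sum_congr rfl fun j _ => ?_
        ring
      have e3 : |hA lam d - AA * HH d| ≤
          2 ^ om d * (C2 * (exc d : ℝ) ^ (2 / 3 + θ / 3 : ℝ) * lam ^ (-θ)) := by
        rw [e2, ← hex6 d hd0, Finset.sum_mul]
        refine (Finset.abs_sum_le_sum_abs _ _).trans (Finset.sum_le_sum fun j hj => ?_)
        rw [abs_mul]
        refine mul_le_mul_of_nonneg_left ?_ (abs_nonneg _)
        have hjd : j ∣ d := Nat.dvd_of_mem_divisors hj
        have hj0 : 0 < j := Nat.pos_of_mem_divisors hj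
        have hej : (0 : ℝ) < exc j := by exact_mod_cast (hex1 j hj0).2
        have h1 := hcut (exc j) lam hej hlam
        rw [abs_sub_comm] at h1
        refine h1.trans ?_
        have h2 : (exc j : ℝ) ^ (2 / 3 + θ / 3 : ℝ) ≤ (exc d : ℝ) ^ (2 / 3 + θ / 3 : ℝ) :=
          Real.rpow_le_rpow hej.le (by exact_mod_cast hex5 j d hd0 hjd) (by linarith)
        have h3 : C2 * (exc j : ℝ) ^ (2 / 3 + θ / 3 : ℝ) ≤ C2 * (exc d : ℝ) ^ (2 / 3 + θ / 3 : ℝ) :=
          mul_le_mul_of_nonneg_left h2 (by linarith)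
        exact mul_le_mul_of_nonneg_right h3 hl0
      have hkd : (3 : ℝ) ^ om d * kap d ≤ 3 ^ om d * (1 / d) :=
        mul_le_mul_of_nonneg_left (hkap d hd0).2 (by positivity)
      calc (3 : ℝ) ^ om d * kap d * |hA lam d - AA * HH d|
          ≤ 3 ^ om d * (1 / d) *
            (2 ^ om d * (C2 * (exc d : ℝ) ^ (2 / 3 + θ / 3 : ℝ) * lam ^ (-θ))) :=
            mul_le_mul hkd e3 (abs_nonneg _) (by positivity)
        _ = C2 * lam ^ (-θ) * ((3 * 2) ^ om d * (exc d : ℝ) ^ (2 / 3 + θ / 3 : ℝ) / d) := by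
            rw [mul_pow]; ring
        _ = _ := by norm_num
    · simp [if_neg hd]
  have hGG : GG lam - AA * SS = ∑' d, (cg lam d - AA * cf d) := by
    unfold GG SS
    rw [← tsum_mul_left, hs1.tsum_sub (hs2.mul_left AA)]
  rw [hGG]
  have habs : Summable fun d => |cg lam d - AA * cf d| := hs3.abs
  have h5 : |∑' d, (cg lam d - AA * cf d)| ≤ ∑' d, |cg lam d - AA * cf d| := by
    have := norm_tsum_le_tsum_norm (f := fun d => cg lam d - AA * cf d) (by simpa using habs)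
    simpa [Real.norm_eq_abs] using this
  refine h5.trans ?_
  refine Real.tsum_le_of_sum_le (fun d => abs_nonneg _) (fun S => ?_)
  calc ∑ d ∈ S, |cg lam d - AA * cf d|
      ≤ ∑ d ∈ S, (if Sqf d then
          C2 * lam ^ (-θ) * (6 ^ om d * (exc d : ℝ) ^ (2 / 3 + θ / 3 : ℝ) / d) else 0) :=
        Finset.sum_le_sum fun d _ => hterm d
    _ = ∑ d ∈ S.filter Sqf,
          C2 * lam ^ (-θ) * (6 ^ om d * (exc d : ℝ) ^ (2 / 3 + θ / 3 : ℝ) / d) := by
        rw [Finset.sum_filter]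
    _ = C2 * lam ^ (-θ) * ∑ d ∈ S.filter Sqf,
          6 ^ om d * (exc d : ℝ) ^ (2 / 3 + θ / 3 : ℝ) / d := by
        rw [Finset.mul_sum]
    _ ≤ C2 * lam ^ (-θ) * C1 := by
        refine mul_le_mul_of_nonneg_left (hsut _ fun d hd => (Finset.mem_filter.1 hd).2) ?_
        have : 0 ≤ C2 := by linarith
        positivity
    _ = C2 * C1 * lam ^ (-θ) := by ring

end Pool.ASY
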